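import Pool.Agent.X302.MW.Rig

/-!
# MP_cd312e_ag: the monodromy-weight conjecture for threefolds whose 3-forms degenerate completely
-/

set_option autoImplicit false

open Module

universe u v

namespace Pool.Agent.Results.MP_cd312e_ag.IndependenceInDegreeTwo

open Pool.Agent.Y143 Pool.Agent.X302.MW

/-- **The monodromy-weight conjecture for threefolds whose forms of degree three degenerate
completely, for example threefolds with `H^3(X, O) = 0`.** Let `X` be a smooth projective threefold
over a `p`-adic field `K` which has a projective strictly semistable model, with residue field with
`q` elements, and let `h = dim H^3(X, O)`. Suppose that the components of the special fibre satisfy the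
Tate conjecture for divisors, that the multiplicities of the Frobenius eigenvalues on `H^2` are
independent of `ℓ` (including `p`), and that the graded pieces of weight zero and one of the `p`-adic
cohomology `H^3` satisfy `dim gr_0 + (dim gr_1) / 2 ≥ h`; this is no condition if `H^3(X, O) = 0`. Then
`H^k` of the geometric generic fibre is mw pure of weight `k`, for all `k`. There is no
condition on `H^2(X, O)`.

Here `X` is the `ℓ`-adic theory (cohomology of the strata of the special fibre and of the geometric
generic fibre, and weight spectral sequence of Rapoport and Zink) and `X'` is the `p`-adic theory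
(crystalline cohomology of the strata, Hyodo-Kato cohomology, weight spectral sequence of Mokrane),
with coefficients in algebraically closed fields `Ω` and `Ω'`, and `R` is the valuation ring of
`Ω'`; `A` and `A'` are the classes of divisors on the strata. The hypotheses are the following.

* `hC` (known, Deligne and Katz-Messing): the Frobenius eigenvalues on the
  strata are algebraic integers, and the Frobenius has the same rational characteristic polynomial
  on `H^2(Y^(1))`, and on `H^2(Y^(2))`, in the two theories.
* `hM`: an eigenvalue of weight two on the `ℓ`-adic `H^2`, which is not the product of `q` and a root of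
  unity, has at most the multiplicity of its conjugates on the Hyodo-Kato cohomology `H^2`. This holds if
  `H^2(X, O) = 0`, and (Ochiai, T. Saito) if the Künneth projector onto `H^2` is algebraic.
* `hN`: on a subspace `U` of the Hyodo-Kato cohomology `H^3` stable under the Frobenius, the sum of
  the slopes is at least `dim U - h`; this holds because the Newton polygon lies above the Hodge
  polygon and all the Hodge numbers but `h^{0,3} = h` contribute slopes at least one.
* `hW`: the condition on the graded pieces `gr_0` and `gr_1`, in the form
  `2 h ≤ dim W_0 + dim W_1`.
* `hT`: the Tate conjecture for divisors on the components. -/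
theorem result {Ω : Type u} [Field Ω] [CharZero Ω] [IsAlgClosed Ω] {Γ : Type}
    {Ω' : Type u} [Field Ω'] [CharZero Ω'] [IsAlgClosed Ω'] {Γ' : Type} {q : ℕ}
    (hq : IsPrimePow q)
    (X : Degeneration.{u, v} Ω Γ 3 q) (A : DivisorClasses X.toSpecialFibre)
    (X' : SemistableModel.{u, v} Ω' Γ' 3 q) (A' : DivisorClasses X'.toSpecialFibre)
    (hC : AreComparable X.toSpecialFibre X'.toSpecialFibre)
    (R : ValuationSubring Ω') (hR : ((q : Ω'))⁻¹ ∉ R)
    (hM : NotMore X.toSemistableModel X' 2)
    (h : ℕ) (hN : NewtonBound X' 3 h R)
    (hW : IsCompletelyDegenerate X' 3 h)
    (hT : A.TateConj 0) (k : ℕ) :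
    IsMWPure q k (X.actV k X.frob) (X.N k) :=
  mw_indep hq X A X' A' hC R hR hM hN hW hT k

end Pool.Agent.Results.MP_cd312e_ag.IndependenceInDegreeTwo
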