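import Pool.Agent.X312.MR.Fam

/-!
# A gap law for the part of the cohomology which violates the monodromy-weight conjecture, on `Y ×
X ^ n`

Let `K` be a complete discretely valued field of characteristic `0` with finite residue field of
characteristic `p`, `ℓ ≠ p`, and let `X` be **any** smooth projective and `Y` **any** smooth
proper variety over `K`. Fix `e ∈ {0, 1}`. For `Z` smooth projective over `K` let

`S(Z) = ⊕_j H^(2 j + e)(Y × Z)(j)`,

`ℓ`-adic cohomology with coefficients in an algebraic closure of `ℚ_ℓ`, a representation of the
Galois group of `K`. Let `V_i` (`i ∈ ι`) be **any** finitely many pairwise not isomorphic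
indecomposable direct summands of `S(X ^ m)`, and `d_i` the least integer `≥ dim V_i / b(Y)`,
where `b(Y)` and `b` are the sums of the Betti numbers of `Y` and `X`; let `Mot(Z)` be the
subspace of the cohomology of `Z` generated by the motivated cycles over `K` (for an embedding of
`K` in `ℂ`). For all `m, n ≥ 1` there are numbers `r_i` such that

`r_i ≥ (d_i - 4 (m + 3) b ^ (m + 5) log (n + 1) / n) dim Mot(X ^ n)` and `⊕_i V_i ^ (r_i)` **is a
direct summand of** `S(X ^ n)`.

Nothing is assumed on `X` and `Y`. The conjecture Q1 for `Y × X ^ m` says that `V` is not a direct
summand of `S(X ^ m)` if for some `s` the representation `gr ^ N_s V` is not pure of weight `e +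
s`. Let the `V_i` be all the indecomposable direct summands of `S(X ^ m)` which violate the
conjecture in this sense (the dual of a `V_i`, twisted, is one of them). By the law **the part
of** `S(X ^ n)` **which violates the conjecture has dimension at least**

`∑_i (dim V_i) (d_i - ε_n) dim Mot(X ^ n)`.

So if Q1 is false for one of the varieties `Y × X ^ m` then it is false for all `Y × X ^ n` with
large `n`, and all the violations which occur for `m` occur together, with very large
multiplicities. For `Y` a point, `d_i = dim V_i`.

The Galois group of `K` commutes with the motivated correspondences over `K`, and the pairing on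
motivated cycles is nondegenerate by the Hodge index theorem (André).

The proof. A homomorphism `V → S(Z)` is split if it has an equivariant retraction; as the
endomorphism ring of `V` is local (Fitting), the homomorphisms which are not split form a
subspace. Let `T(Z)` be the quotient. If `V` is a direct summand of `S(P)` for `P = X ^ m` then
`T(P) ≠ 0`; one takes an idempotent motivated correspondence `g` on `P` of minimal rank with `g
T(P) ≠ 0`, and `z ≠ 0` in `g T(P)`. A correspondence `x` with `x z = 0` has a nilpotent
compression `g x g`, so the trace of `g x` vanishes; therefore `dim T(Z)` is at least the rank of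
the trace form `(u, v) ↦ tr (g v u)` on the correspondences between `P` and `Z`, and for `Z = X ^
n` this rank is at least `rank(g) - ε` times `dim Mot(X ^ n)`, by the log-convexity of the
sequence of these dimensions and by the symmetric group. The image of `g` on `S(P)` has `V` as a
direct summand and its dimension is at most `b(Y)` times the rank of `g`, so the rank of `g` is at
least `d`. The `V_i` are split off one after the other: a homomorphism from `V_i` to `S(Z)` which
factors through other `V_j` is not split, so `T(Z)` does not change if one passes to the
complement of the copies of the `V_j`.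
-/

set_option autoImplicit false

open CategoryTheory AlgebraicGeometry

universe u v w

namespace Pool.Agent.Results.MP_cd312e_ag.MultiplicityGapLaw

open Pool.Agent.H914 VarClass Obj WeilCohomology
open Pool.Agent.X312.MR (IsIndecomposable IsSummandPow AreNonisomorphic IsSummandSum
  IsNaturalAction IsBounded)
open Pool.Agent.X312.FC (CorrData rankBound)
open Pool.Agent.X312.FM (Family IsRingFamily IsNondeg dimOn)
open Pool.Agent.Y133.Half (pw)

variable {k : Type u} [Field k] {𝒱 : VarClass k} {ops : CycleOps 𝒱}
  {W : WeilCohomology.{u, v} ops}

/-- The sum of the Betti numbers of `X`. -/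
noncomputable def totalBetti (W : WeilCohomology.{u, v} ops) (X : 𝒱.Obj) : ℕ :=
  Module.finrank W.K (W.H X)

/-- **The gap law for several indecomposable representations at once.** In the intended use `C` is the
family of the spaces generated by the motivated cycles over `K`, `S.M Z = ⊕_j H^(2 j + e)(Y × Z)(j)`,
`ρ Z` is the action of the Galois group of `K`, `b = b(Y)`, and the `V i` are the indecomposable
representations in `S(X ^ m)` which violate the monodromy-weight conjecture. Here `dimOn C Z` is the
dimension of `C Z`, and `pw X m` is the product of `m + 1` copies of `X`. -/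
theorem result [IsAlgClosed W.K] (C : Family W) (hC : IsRingFamily C) (S : CorrData W)
    (hS : S.IsFunctor C) {G : Type v} (ρ : ∀ Z : 𝒱.Obj, G → S.M Z → S.M Z)
    (hρ : IsNaturalAction C S ρ) (b : ℕ) (hb : IsBounded C S b) {ι : Type} [Fintype ι]
    {V : ι → Type v} [∀ i, AddCommGroup (V i)] [∀ i, Module W.K (V i)]
    [∀ i, FiniteDimensional W.K (V i)] (τ : ∀ i, G → V i → V i)
    (hτ : ∀ i g, IsLinearMap W.K (τ i g)) (hV : ∀ i, IsIndecomposable W.K (τ i))
    (hne : AreNonisomorphic W.K τ) (d : ι → ℕ) (hd : ∀ i, (d i - 1) * b < Module.finrank W.K (V i))
    (X : 𝒱.Obj) (hX : ∀ n, IsNondeg C (pw X n)) (m : ℕ)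
    (hm : ∀ i, IsSummandPow W.K (τ i) (ρ (pw X m)) 1) (n : ℕ) :
    ∃ r : ι → ℕ, (∀ i, rankBound (d i) (totalBetti W X) (dimOn C (pw X n)) m n ≤ r i) ∧
      IsSummandSum W.K τ (ρ (pw X n)) r :=
  Pool.Agent.X312.MR.fam_law hC hS hρ hτ hV hne hb hd X hX m hm n

end Pool.Agent.Results.MP_cd312e_ag.MultiplicityGapLaw
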