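import Pool.Agent.X268.WM.Main

/-!
# The weight-monodromy conjecture follows from its Tate part

Let `K` be a `p`-adic field with residue field of `q` elements, `ℓ ≠ p`, and consider the smooth projective
varieties `X` over `K` (or any class of smooth projective varieties that contains a smooth hyperplane
section of each of its members). Let `F` be the action of a geometric Frobenius element of the
Weil group, and `N` the monodromy operator, on `H^m (X)` (coefficients in an algebraic closure `Ω` of the
`ℓ`-adic numbers). So `N F = q F N`, and `N` maps the generalized eigenspace of `F` for the eigenvalue `a`
into the one for `a / q`.

The weight-monodromy conjecture for `H^m (X)` says that for `k ≥ 0` the operator `N ^ k` maps the part of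
weight `m + k` of `H^m (X)` isomorphically onto the part of weight `m - k` (`FN.IsPure`; then the parts of
weight `m + s` are the graded pieces of the monodromy filtration).

**Theorem.** The weight-monodromy conjecture, for all varieties and all degrees, follows from the following
part of it (`FN.TatePart`), which concerns only Frobenius eigenvalues that are powers of `q`, in the middle
degree, on squares: for a variety `X` of dimension `n` and `i > 0` no nonzero element of

  `H^n (X) ⊗ H^n (X) ⊂ H^(2 n) (X × X)`

which is an eigenvector of Frobenius with the eigenvalue `q ^ (n + i)` (that is, which is invariant under
Frobenius after the twist `(n + i)`) is killed by `N ^ (2 i)`. (Conversely this is contained in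
the weight-monodromy conjecture for `X × X`, by Künneth.) By the Tate conjecture for the strata of a
semistable model these elements should come from algebraic cycles; so all the Frobenius eigenvalues
that are not powers of `q` can be avoided.

The properties of the cohomology used (`Cohomology`) are theorems: the eigenvalues of Frobenius are `q`-Weil
numbers (Rapoport and Zink, de Jong, Deligne); Poincaré duality and the hard Lefschetz theorem; the weak
Lefschetz theorem; and the rationality of the alternating product of the characteristic polynomials of
Frobenius (Ochiai). The rationality of the characteristic polynomial of Frobenius on a single group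
`H^m (X)` is not known; it is not assumed.

The proof: suppose that `x` is a Frobenius eigenvector in the part of weight `n + k` of `H^n (X)`, with
eigenvalue `a`, and `N ^ k x = 0`. If `y` is an eigenvector in the part of weight `n + l` with an
eigenvalue `b` such that `a b` is a power of `q` and with `N ^ (l + 1) y = 0`, then `x ⊗ y` contradicts the
hypothesis. So `N ^ (l + 1)` is injective on the generalized eigenspaces for the eigenvalues
`b = q ^ j (q ^ (n + k) / a)`, `j ≥ 0`. With duality and the symmetry of the multiplicities under complex
conjugation this gives increasing multiplicities, so they vanish, a contradiction. The symmetry holds in the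
degrees where purity is known, hence, by the rationality of the alternating product, in the middle degree
as well.
-/

set_option autoImplicit false

universe u

namespace Pool.Agent.Results.MP_cd312e_ag.TatePartSuffices

open Pool.Agent.X268.WM

/-- **The weight-monodromy conjecture follows from its part for the Frobenius eigenvalues `q ^ (n + i)` on
`H^n (X) ⊗ H^n (X) ⊂ H^(2 n) (X × X)`, where `n = dim X`.** -/
theorem result {Ω : Type} [Field Ω] [CharZero Ω] {q : ℕ} (hq : 1 < q) (𝒞 : Cohomology.{u} Ω q)
    (hT : ∀ (n : ℕ) (X : 𝒞.Var n), (𝒞.H X n).TatePart n) (n : ℕ) (X : 𝒞.Var n) (m : ℕ)
    (hm : m ≤ 2 * n) : (𝒞.H X m).IsPure m :=
  weightMonodromy_of_tate 𝒞 hq hT n X m hm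

end Pool.Agent.Results.MP_cd312e_ag.TatePartSuffices
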