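import Pool.Agent.X302.MW.Third

/-!
# MP_cd312e_ag: the three extreme weights of `H^k`, and `H^3`, in all dimensions
-/

set_option autoImplicit false

open Module

universe u v

namespace Pool.Agent.Results.MP_cd312e_ag.ThreeExtremeWeights

open Pool.Agent.Y143 Pool.Agent.X302.MW

/-- The conclusion in degree `k`: the maps `N ^ e : gr_(m + e) H^m → gr_(m - e) H^m` (graded pieces of
the weight filtration) are bijective for all `e ≥ k - 2`, `e ≥ 1`, for `m = k` and `m = 2 n - k`; and if
`k = 3`, then `H^3` and `H^(2 n - 3)` are mw pure. -/
def Conclusion {Ω : Type u} [Field Ω] [CharZero Ω] {Γ : Type} {n q : ℕ}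
    (X : SemistableModel.{u, v} Ω Γ n q) (k : ℕ) : Prop :=
  PowerIsoFrom X k (k - 2) ∧ PowerIsoFrom X (2 * n - k) (k - 2) ∧
    (k = 3 → IsMWPure q k (X.actV k X.frob) (X.N k) ∧
      IsMWPure q (2 * n - k : ℕ) (X.actV (2 * n - k) X.frob) (X.N (2 * n - k)))

/-- **The extreme weights of varieties of any dimension.** Let `X` be a smooth projective variety of
dimension `n` over a `p`-adic field which has a projective strictly semistable model, with residue
field with `q` elements, `3 ≤ k ≤ n` and `h = dim H^k(X, O)`. Suppose that the graded pieces of weight
zero and one of the `p`-adic cohomology `H^k` satisfy `dim gr_0 + (dim gr_1) / 2 ≥ h` (no condition if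
`H^k(X, O) = 0`), that the multiplicities of the Frobenius eigenvalues of weight two on `H^k` are
independent of `ℓ` (including `p`), and that the Tate conjecture for divisors holds for the
intersections of `k - 2` components of the special fibre. Then
`N ^ e : gr_(k + e) H^k → gr_(k - e) H^k` is bijective for `e = k, k - 1, k - 2`, and the same for
`H^(2 n - k)`. For `k = 3`, this is the full monodromy-weight conjecture for `H^3` and `H^(2 n - 3)`.

Here `X` is the `ℓ`-adic theory (cohomology of the strata of the special fibre and of the geometric
generic fibre, and weight spectral sequence of Rapoport and Zink) and `X'` is the `p`-adic theory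
(crystalline cohomology of the strata, Hyodo-Kato cohomology, weight spectral sequence of Mokrane),
with coefficients in algebraically closed fields `Ω` and `Ω'`, and `R` is the valuation ring of
`Ω'`; `A` and `A'` are the classes of divisors on the strata. The hypotheses are the following.

* `hI` (known, Deligne): the Frobenius eigenvalues on the strata are algebraic integers.
* `hM`: an eigenvalue of weight two on the `ℓ`-adic `H^k`, which is not the product of `q` and a root of
  unity, has at most the multiplicity of its conjugates on the Hyodo-Kato cohomology `H^k`.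
* `hN`: on a subspace `U` of the Hyodo-Kato cohomology `H^k` stable under the Frobenius, the sum of
  the slopes is at least `dim U - h`; this holds because the Newton polygon lies above the Hodge
  polygon and all the Hodge numbers but `h^{0,k} = h` contribute slopes at least one.
* `hW`: the condition on the graded pieces `gr_0` and `gr_1`, in the form
  `2 h ≤ dim W_0 + dim W_1`.
* `hT`: the Tate conjecture for divisors on the intersections `Y^(k-2)` of `k - 2` components. -/
theorem result {Ω : Type u} [Field Ω] [CharZero Ω] [IsAlgClosed Ω] {Γ : Type}
    {Ω' : Type u} [Field Ω'] [CharZero Ω'] [IsAlgClosed Ω'] {Γ' : Type} {n q : ℕ}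
    (hq : IsPrimePow q)
    (X : Degeneration.{u, v} Ω Γ n q) (A : DivisorClasses X.toSpecialFibre)
    (X' : SemistableModel.{u, v} Ω' Γ' n q) (A' : DivisorClasses X'.toSpecialFibre)
    (hI : HasIntegralFrobenius X.toSpecialFibre)
    (R : ValuationSubring Ω') (hR : ((q : Ω'))⁻¹ ∉ R) (k : ℕ) (hk : 3 ≤ k) (hkn : k ≤ n)
    (hM : NotMore X.toSemistableModel X' k)
    (h : ℕ) (hN : NewtonBound X' k h R)
    (hW : IsCompletelyDegenerate X' k h)
    (hT : A.TateConj (k - 3)) : Conclusion X.toSemistableModel k :=
  three_extreme_of_degenerate hq X A X' A' hI R hR k hk hkn hM hN hW hT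

end Pool.Agent.Results.MP_cd312e_ag.ThreeExtremeWeights
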